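import Pool.Agent.H57C.Final

/-!
# MP_820cde_gt, Q1 (full answer)

A compact group, abelian or not, is metrizable if and only if all of its `G_δ`-dense subgroups are
projectively `w`-compact.

Idea of the proof. Let `G` be compact and not metrizable.
(1) `G` has an open normal subgroup `L` and closed normal subgroups `C i < L` with metrizable
`G / C i`, indexed by a well-ordered set of type `ω₁`, such that `C i * ⋂ j ∈ F, C j = L` for all
finite sets `F` of indices below `i`. If there are uncountably many open normal subgroups, minimal
steps between them do. Otherwise `G / A` is metrizable for the identity component `A`. Either for
all closed normal `N` with metrizable `G / N` the group `N ∩ A` acts nontrivially on the Lie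
algebra of a linear quotient, which gives simple factors one after the other; or some `N ∩ A` is
central in `A`, and then `A` has uncountably many characters, and independent orbits of characters
are chosen by recursion.
(2) In such a group there is a `G_δ`-dense subgroup, generated by a finite set and elements `x r`
for `r` in a Bernstein set of the Cantor space, whose image in the product of the `G / C i` has
only countable compact subsets (a word in the generators is nonconstant on uncountably many
coordinates, in a way that recovers the index `r`), but uncountable weight.
-/

set_option autoImplicit false

namespace Pool.Agent.Results.MP_820cde_gt.CompactMetrizable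

/-- the weight of a space: the least cardinality of a base -/
noncomputable def weight (X : Type) [TopologicalSpace X] : Cardinal :=
  sInf {κ | ∃ B : Set (Set X), TopologicalSpace.IsTopologicalBasis B ∧ Cardinal.mk B = κ}

/-- some compact subset has the weight of the space -/
def WCompact (X : Type) [TopologicalSpace X] : Prop :=
  ∃ C : Set X, IsCompact C ∧ weight C = weight X

/-- every Hausdorff topological group which is a continuous homomorphic image is `w`-compact -/
def ProjWCompact (D : Type) [Group D] [TopologicalSpace D] : Prop :=
  ∀ (H : Type) [Group H] [TopologicalSpace H] [IsTopologicalGroup H] [T2Space H] (f : D →* H),
    Continuous f → Function.Surjective f → WCompact H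

/-- every nonempty `G_δ` set meets `D` -/
def GdDense {G : Type} [Group G] [TopologicalSpace G] (D : Subgroup G) : Prop :=
  ∀ B : Set G, IsGδ B → B.Nonempty → (B ∩ D).Nonempty

/-- **Metrization criterion for compact groups.** A compact Hausdorff group is metrizable if and
only if all of its `G_δ`-dense subgroups are projectively `w`-compact. -/
theorem result (G : Type) [Group G] [TopologicalSpace G] [IsTopologicalGroup G] [CompactSpace G]
    [T2Space G] : TopologicalSpace.MetrizableSpace G ↔
      ∀ D : Subgroup G, GdDense D → ProjWCompact D := by
  constructor
  · intro h D hD
    exact Pool.Agent.H57C.projWCompact_of_metrizable h D hD
  · intro h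
    exact Pool.Agent.H57C.metrizable_of_projWCompact fun D hD => h D hD

end Pool.Agent.Results.MP_820cde_gt.CompactMetrizable
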